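import Pool.Agent.Q289.BG.Stm

/-! # BG: job DIR -/

set_option autoImplicit false

namespace Q129.BG

open MeasureTheory Set Q289.BG
open scoped ENNReal InnerProductSpace
open Pool.Agent.W695.KH (Eu EV VV)

/-- Cauchy and Schwarz on an interval -/
theorem cs (g : ℝ → ℝ) (hg : Continuous g) (s : ℝ) (hs : 0 ≤ s) :
    (∫ t in (0 : ℝ)..s, g t) ^ 2 ≤ s * ∫ t in (0 : ℝ)..s, g t ^ 2 := by
  rcases hs.eq_or_lt with h | h
  · subst h
    simp
  obtain ⟨A, hA⟩ : ∃ A, A = ∫ t in (0 : ℝ)..s, g t := ⟨_, rfl⟩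
  have i1 : IntervalIntegrable (fun t => g t ^ 2) volume 0 s := (hg.pow 2).intervalIntegrable _ _
  have i2 : IntervalIntegrable (fun t => 2 * (A / s) * g t) volume 0 s := (hg.const_mul _).intervalIntegrable _ _
  have i3 : IntervalIntegrable (fun _ : ℝ => (A / s) ^ 2) volume 0 s := continuous_const.intervalIntegrable _ _
  have h0 : 0 ≤ ∫ t in (0 : ℝ)..s, (g t - A / s) ^ 2 :=
    intervalIntegral.integral_nonneg hs fun t _ => sq_nonneg _
  have e1 : ∫ t in (0 : ℝ)..s, (g t - A / s) ^ 2 =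
      (∫ t in (0 : ℝ)..s, g t ^ 2) - 2 * (A / s) * A + s * (A / s) ^ 2 := by
    have e2 : (fun t => (g t - A / s) ^ 2) = fun t => (g t ^ 2 - 2 * (A / s) * g t) + (A / s) ^ 2 := by
      funext t
      ring
    rw [e2, intervalIntegral.integral_add (i1.sub i2) i3, intervalIntegral.integral_sub i1 i2,
      intervalIntegral.integral_const_mul, ← hA, intervalIntegral.integral_const, smul_eq_mul, sub_zero]
  rw [e1] at h0
  have e3 : (∫ t in (0 : ℝ)..s, g t ^ 2) - 2 * (A / s) * A + s * (A / s) ^ 2 =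
      (∫ t in (0 : ℝ)..s, g t ^ 2) - A ^ 2 / s := by
    field_simp
    ring
  rw [e3, sub_nonneg, div_le_iff₀ h] at h0
  rw [← hA]
  linarith

theorem one_pt (φ φ' : ℝ → ℝ) (hφ : ∀ t, HasDerivAt φ (φ' t) t) (hc : Continuous φ') (s : ℝ) (hs : 0 ≤ s) :
    (φ s - φ (-s)) ^ 2 ≤ 2 * s * ∫ t in (0 : ℝ)..s, (φ' t ^ 2 + φ' (-t) ^ 2) := by
  have hc2 : Continuous fun t => φ' (-t) := hc.comp continuous_neg
  have hg : Continuous fun t => φ' t + φ' (-t) := hc.add hc2
  have h1 : ∫ t in (0 : ℝ)..s, (φ' t + φ' (-t)) = φ s - φ (-s) := by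
    have h2 : ∀ t ∈ uIcc 0 s, HasDerivAt (fun t => φ t - φ (-t)) (φ' t + φ' (-t)) t := by
      intro t _
      have h3 : HasDerivAt (fun t => φ (-t)) (-(φ' (-t))) t := by
        have := (hφ (-t)).comp t (hasDerivAt_neg t)
        exact this.congr_deriv (by ring)
      exact ((hφ t).sub h3).congr_deriv (by ring)
    rw [intervalIntegral.integral_eq_sub_of_hasDerivAt h2 (hg.intervalIntegrable _ _)]
    simp
  have h2 := cs _ hg s hs
  rw [h1] at h2
  have h3 : ∫ t in (0 : ℝ)..s, (φ' t + φ' (-t)) ^ 2 ≤ ∫ t in (0 : ℝ)..s, 2 * (φ' t ^ 2 + φ' (-t) ^ 2) := by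
    apply intervalIntegral.integral_mono_on hs ((hg.pow 2).intervalIntegrable _ _)
    · exact (((hc.pow 2).add (hc2.pow 2)).const_mul 2).intervalIntegrable _ _
    · intro t _
      show (φ' t + φ' (-t)) ^ 2 ≤ 2 * (φ' t ^ 2 + φ' (-t) ^ 2)
      nlinarith [sq_nonneg (φ' t - φ' (-t))]
  rw [intervalIntegral.integral_const_mul] at h3
  calc (φ s - φ (-s)) ^ 2 ≤ s * ∫ t in (0 : ℝ)..s, (φ' t + φ' (-t)) ^ 2 := h2
    _ ≤ s * (2 * ∫ t in (0 : ℝ)..s, (φ' t ^ 2 + φ' (-t) ^ 2)) := by gcongr
    _ = _ := by ring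

theorem one_dim (φ φ' : ℝ → ℝ) (hφ : ∀ t, HasDerivAt φ (φ' t) t) (hc : Continuous φ') (S : Set ℝ)
    (hS : MeasurableSet S) (hS1 : ∀ s ∈ S, 0 ≤ s ∧ s ≤ 1) (hdown : ∀ s ∈ S, ∀ t, 0 ≤ t → t ≤ s → t ∈ S) :
    ∫⁻ s in S, ENNReal.ofReal ((φ s - φ (-s)) ^ 2) ≤ ∫⁻ s in S, ENNReal.ofReal (φ' s ^ 2 + φ' (-s) ^ 2) := by
  have hc2 : Continuous fun t => φ' (-t) := hc.comp continuous_neg
  obtain ⟨K, hK⟩ : ∃ K, K = ∫⁻ s in S, ENNReal.ofReal (φ' s ^ 2 + φ' (-s) ^ 2) := ⟨_, rfl⟩
  rw [← hK]
  have h1 : ∀ s ∈ S, ENNReal.ofReal ((φ s - φ (-s)) ^ 2) ≤ ENNReal.ofReal (2 * s) * K := by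
    intro s hs
    have hs0 := (hS1 s hs).1
    have h2 := one_pt φ φ' hφ hc s hs0
    have hk : Continuous fun t => φ' t ^ 2 + φ' (-t) ^ 2 := (hc.pow 2).add (hc2.pow 2)
    calc ENNReal.ofReal ((φ s - φ (-s)) ^ 2)
        ≤ ENNReal.ofReal (2 * s * ∫ t in (0 : ℝ)..s, (φ' t ^ 2 + φ' (-t) ^ 2)) := ENNReal.ofReal_le_ofReal h2
      _ = ENNReal.ofReal (2 * s) * ENNReal.ofReal (∫ t in (0 : ℝ)..s, (φ' t ^ 2 + φ' (-t) ^ 2)) :=
        ENNReal.ofReal_mul (by positivity)
      _ ≤ ENNReal.ofReal (2 * s) * K := by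
        gcongr
        rw [intervalIntegral.integral_of_le hs0, ofReal_integral_eq_lintegral_ofReal, hK]
        · exact lintegral_mono_set fun t ht => hdown s hs t ht.1.le ht.2
        · exact (hk.integrableOn_Icc (a := 0) (b := s)).mono_set Ioc_subset_Icc_self
        · exact Filter.Eventually.of_forall fun t => by positivity
  calc ∫⁻ s in S, ENNReal.ofReal ((φ s - φ (-s)) ^ 2) ≤ ∫⁻ s in S, ENNReal.ofReal (2 * s) * K :=
        setLIntegral_mono' hS h1
    _ = (∫⁻ s in S, ENNReal.ofReal (2 * s)) * K := lintegral_mul_const _ (by fun_prop)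
    _ ≤ 1 * K := by
      gcongr
      calc ∫⁻ s in S, ENNReal.ofReal (2 * s) ≤ ∫⁻ s in Icc (0 : ℝ) 1, ENNReal.ofReal (2 * s) :=
            lintegral_mono_set fun s hs => hS1 s hs
        _ = ENNReal.ofReal (∫ s in Icc (0 : ℝ) 1, 2 * s) := by
          rw [ofReal_integral_eq_lintegral_ofReal]
          · exact (by fun_prop : Continuous fun s : ℝ => 2 * s).integrableOn_Icc
          · rw [Filter.EventuallyLE, ae_restrict_iff' measurableSet_Icc]
            exact Filter.Eventually.of_forall fun s hs => by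
              have := hs.1
              show (0 : ℝ) ≤ 2 * s
              positivity
        _ = 1 := by
          rw [integral_Icc_eq_integral_Ioc, ← intervalIntegral.integral_of_le zero_le_one,
            intervalIntegral.integral_const_mul, integral_id]
          norm_num
    _ = K := one_mul K

section main

variable {ι : Type} [Fintype ι] [DecidableEq ι]

/-- the point with the coordinate `i` equal to `t` -/
noncomputable def pt (σ : ι → Bool) (i : ι) (x : ι → ℝ) (t : ℝ) : Eu ι :=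
  WithLp.toLp 2 (Function.update (fun j => if σ j = true then -x j else x j) i t)

theorem pt_eq (σ : ι → Bool) (i : ι) (x : ι → ℝ) (t : ℝ) :
    pt σ i x t = pt σ i x 0 + t • EuclideanSpace.single i (1 : ℝ) := by
  ext j
  unfold pt
  by_cases h : j = i
  · subst h
    simp
  · simp [h]

theorem pt_deriv (σ : ι → Bool) (i : ι) (x : ι → ℝ) (t : ℝ) :
    HasDerivAt (pt σ i x) (EuclideanSpace.single i (1 : ℝ)) t := by
  have h1 : pt σ i x = fun t => pt σ i x 0 + t • EuclideanSpace.single i (1 : ℝ) := by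
    funext t
    exact pt_eq σ i x t
  rw [h1]
  have h2 := ((hasDerivAt_id t).smul_const (EuclideanSpace.single i (1 : ℝ) : Eu ι)).const_add (pt σ i x 0)
  exact h2.congr_deriv (one_smul _ _)

theorem sg_pt (σ : ι → Bool) (i : ι) (x : ι → ℝ) (s : ℝ) :
    sg σ (WithLp.toLp 2 (Function.update x i s)) = pt σ i x (if σ i = true then -s else s) := by
  ext j
  unfold sg pt
  by_cases h : j = i
  · subst h
    simp
  · simp [h]

theorem sg_pt' (σ : ι → Bool) (i : ι) (x : ι → ℝ) (s : ℝ) :
    sg (Function.update σ i (!σ i)) (WithLp.toLp 2 (Function.update x i s)) =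
      pt σ i x (if σ i = true then s else -s) := by
  ext j
  unfold sg pt
  by_cases h : j = i
  · subst h
    cases hσ : σ j <;> simp [hσ]
  · simp [h]

theorem sg_cont (σ : ι → Bool) : Continuous (sg σ : Eu ι → Eu ι) := by
  unfold sg
  refine (PiLp.continuous_toLp 2 _).comp (continuous_pi fun i => ?_)
  split_ifs
  · exact (EuclideanSpace.proj (𝕜 := ℝ) i).continuous.neg
  · exact (EuclideanSpace.proj (𝕜 := ℝ) i).continuous

theorem slice (D : Set (Eu ι)) (hD : Sol D) (f : Eu ι → ℝ) (hf : ContDiff ℝ 1 f) (σ : ι → Bool) (i : ι)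
    (x : ι → ℝ) :
    ∫⁻ t, (WithLp.toLp 2 ⁻¹' D).indicator (fun y : ι → ℝ => ENNReal.ofReal
        ((f (sg σ (WithLp.toLp 2 y)) - f (sg (Function.update σ i (!σ i)) (WithLp.toLp 2 y))) ^ 2))
        (Function.update x i t) ≤
      ∫⁻ t, (WithLp.toLp 2 ⁻¹' D).indicator (fun y : ι → ℝ => ENNReal.ofReal
        (fderiv ℝ f (sg σ (WithLp.toLp 2 y)) (EuclideanSpace.single i 1) ^ 2 +
          fderiv ℝ f (sg (Function.update σ i (!σ i)) (WithLp.toLp 2 y)) (EuclideanSpace.single i 1) ^ 2))
        (Function.update x i t) := by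
  set S : Set ℝ := {t | (WithLp.toLp 2 (Function.update x i t) : Eu ι) ∈ D} with hSdef
  have hupd : Continuous fun t : ℝ => (WithLp.toLp 2 (Function.update x i t) : Eu ι) :=
    (PiLp.continuous_toLp 2 _).comp (continuous_const.update i continuous_id)
  have hS : MeasurableSet S := (hD.comp.isClosed.preimage hupd).measurableSet
  have hφ : ∀ t, HasDerivAt (fun t => f (pt σ i x t)) (fderiv ℝ f (pt σ i x t) (EuclideanSpace.single i 1)) t := by
    intro t
    have h1 := (hf.differentiable one_ne_zero (pt σ i x t)).hasFDerivAt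
    exact h1.comp_hasDerivAt t (pt_deriv σ i x t)
  have hptc : Continuous (pt σ i x) :=
    continuous_iff_continuousAt.2 fun t => (pt_deriv σ i x t).continuousAt
  have hc : Continuous fun t => fderiv ℝ f (pt σ i x t) (EuclideanSpace.single i 1) :=
    ((hf.continuous_fderiv one_ne_zero).comp hptc).clm_apply continuous_const
  have key := one_dim _ _ hφ hc S hS (fun s hs => by
      have := hD.cube _ hs i
      simpa using this) (fun s hs t ht0 hts => by
      refine hD.down _ hs _ fun j => ?_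
      by_cases h : j = i
      · subst h
        simpa using ⟨ht0, hts⟩
      · have := (hD.cube _ hs j).1
        simp only [Function.update_of_ne h] at this ⊢
        exact ⟨this, le_refl _⟩)
  have e1 : ∀ t, (WithLp.toLp 2 ⁻¹' D).indicator (fun y : ι → ℝ => ENNReal.ofReal
        ((f (sg σ (WithLp.toLp 2 y)) - f (sg (Function.update σ i (!σ i)) (WithLp.toLp 2 y))) ^ 2))
        (Function.update x i t) = S.indicator (fun t => ENNReal.ofReal
        ((f (pt σ i x t) - f (pt σ i x (-t))) ^ 2)) t := by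
    intro t
    by_cases ht : t ∈ S
    · rw [indicator_of_mem (show Function.update x i t ∈ WithLp.toLp 2 ⁻¹' D from ht), indicator_of_mem ht, sg_pt, sg_pt']
      congr 1
      by_cases h : σ i = true
      · rw [if_pos h, if_pos h]; ring
      · rw [if_neg h, if_neg h]
    · rw [indicator_of_notMem (show Function.update x i t ∉ WithLp.toLp 2 ⁻¹' D from ht), indicator_of_notMem ht]
  have e2 : ∀ t, (WithLp.toLp 2 ⁻¹' D).indicator (fun y : ι → ℝ => ENNReal.ofReal
        (fderiv ℝ f (sg σ (WithLp.toLp 2 y)) (EuclideanSpace.single i 1) ^ 2 +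
          fderiv ℝ f (sg (Function.update σ i (!σ i)) (WithLp.toLp 2 y)) (EuclideanSpace.single i 1) ^ 2))
        (Function.update x i t) = S.indicator (fun t => ENNReal.ofReal
        (fderiv ℝ f (pt σ i x t) (EuclideanSpace.single i 1) ^ 2 +
          fderiv ℝ f (pt σ i x (-t)) (EuclideanSpace.single i 1) ^ 2)) t := by
    intro t
    by_cases ht : t ∈ S
    · rw [indicator_of_mem (show Function.update x i t ∈ WithLp.toLp 2 ⁻¹' D from ht), indicator_of_mem ht, sg_pt, sg_pt']
      congr 1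
      by_cases h : σ i = true
      · rw [if_pos h, if_pos h]; ring
      · rw [if_neg h, if_neg h]
    · rw [indicator_of_notMem (show Function.update x i t ∉ WithLp.toLp 2 ⁻¹' D from ht), indicator_of_notMem ht]
  rw [lintegral_congr e1, lintegral_congr e2, lintegral_indicator hS, lintegral_indicator hS]
  exact key

/-- an integral over `D` in coordinates -/
theorem coord (D : Set (Eu ι)) (hD : IsCompact D) (h : Eu ι → ℝ) (hc : Continuous h) (h0 : ∀ y, 0 ≤ h y) :
    ENNReal.ofReal (∫ y in D, h y) =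
      ∫⁻ y : ι → ℝ, (WithLp.toLp 2 ⁻¹' D).indicator (fun y : ι → ℝ => ENNReal.ofReal (h (WithLp.toLp 2 y))) y := by
  rw [ofReal_integral_eq_lintegral_ofReal (hc.continuousOn.integrableOn_compact hD)
    (Filter.Eventually.of_forall h0), ← lintegral_indicator hD.measurableSet]
  have h1 := (PiLp.volume_preserving_toLp ι).lintegral_comp
    (f := D.indicator fun y => ENNReal.ofReal (h y)) ((by fun_prop : Measurable fun y => ENNReal.ofReal (h y)).indicator
      hD.measurableSet)
  rw [← h1]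
  rfl

end main

theorem dir : S_DIR := by
  intro ι _ _ D hD f hf σ i
  have c1 : Continuous fun y : Eu ι => (f (sg σ y) - f (sg (Function.update σ i (!σ i)) y)) ^ 2 :=
    ((hf.continuous.comp (sg_cont σ)).sub (hf.continuous.comp (sg_cont _))).pow 2
  have c2 : Continuous fun y : Eu ι => fderiv ℝ f (sg σ y) (EuclideanSpace.single i 1) ^ 2 +
      fderiv ℝ f (sg (Function.update σ i (!σ i)) y) (EuclideanSpace.single i 1) ^ 2 :=
    ((((hf.continuous_fderiv one_ne_zero).comp (sg_cont σ)).clm_apply continuous_const).pow 2).add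
      ((((hf.continuous_fderiv one_ne_zero).comp (sg_cont _)).clm_apply continuous_const).pow 2)
  have hn : 0 ≤ ∫ y in D, (fderiv ℝ f (sg σ y) (EuclideanSpace.single i 1) ^ 2 +
      fderiv ℝ f (sg (Function.update σ i (!σ i)) y) (EuclideanSpace.single i 1) ^ 2) :=
    integral_nonneg fun y => by positivity
  rw [← ENNReal.ofReal_le_ofReal_iff hn, coord D hD.comp _ c1 (fun y => sq_nonneg _),
    coord D hD.comp _ c2 (fun y => by positivity)]
  have hm : MeasurableSet (WithLp.toLp 2 ⁻¹' D : Set (ι → ℝ)) :=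
    (hD.comp.isClosed.preimage (PiLp.continuous_toLp 2 _)).measurableSet
  refine lintegral_le_of_lmarginal_le {i} ?_ ?_ ?_
  · exact Measurable.indicator (by
      have := (c1.comp (PiLp.continuous_toLp 2 _)).measurable
      exact this.ennreal_ofReal) hm
  · exact Measurable.indicator (by
      have := (c2.comp (PiLp.continuous_toLp 2 _)).measurable
      exact this.ennreal_ofReal) hm
  · rw [lmarginal_singleton, lmarginal_singleton]
    intro x
    exact slice D hD f hf σ i x

end Q129.BG
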